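import Pool.Agent.C4N.Stm2
import Pool.Agent.Helper7_C4N.Rou4

/-!
# C4N, module ROU2: one round with relocation
-/

set_option autoImplicit false

open scoped BigOperators Classical

noncomputable section

namespace Pool.Agent.C4N.H83

open Finset
open Pool.Agent.LAG (near Big)

theorem dg_mono {V : Type} [Fintype V] {G G' : SimpleGraph V} (h : G ≤ G') (v : V) :
    dg G v ≤ dg G' v := by
  unfold dg
  exact Set.ncard_le_ncard (fun u hu => h hu) (Set.toFinite _)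

theorem rou2 (hRA : RAStmt) (hRB : RBStmt) : ROU2Stmt := by
  intro L c hc hc1
  obtain ⟨C1, hRA⟩ := hRA L c hc hc1
  refine ⟨C1, c / 280, by positivity, by linarith, fun ρ' => ?_⟩
  -- the number of steps of the chains
  obtain ⟨l0, hl0⟩ := exists_nat_gt (4 * ((ρ' : ℝ) + 1) / (c / 7))
  have hl : (ρ' : ℝ) + 1 ≤ c / 7 / 4 * (((l0 + 1 : ℕ) : ℝ) - 1) := by
    rw [div_lt_iff₀ (by positivity)] at hl0
    push_cast
    linarith
  refine ⟨4 * (l0 + 1) + 2 * ρ', fun δ hδ => ?_⟩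
  obtain ⟨K1, hK1⟩ := hRA (l0 + 1) (by omega) (δ / 2) (by linarith)
  obtain ⟨K2, hK2⟩ := hRB (c / 7) (l0 + 1) ρ' (by linarith) (by linarith) (by omega) hl
  obtain ⟨K3, hK3⟩ := H7.rn 2 L c δ hc hc1 hδ
  obtain ⟨x4, h41, h4⟩ := H7.big (c / 280) 2 (by linarith)
  obtain ⟨K4, hK4⟩ := exists_nat_gt (x4 + 2)
  refine ⟨max (max K1 K2) (max K3 K4), ?_⟩
  intro K hK A Q hA hQ V _ R E hSt hSep hER hE
  have hKK1 : K1 ≤ K := le_trans (le_trans (le_max_left _ _) (le_max_left _ _)) hK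
  have hKK2 : K2 ≤ K := le_trans (le_trans (le_max_right _ _) (le_max_left _ _)) hK
  have hKK3 : K3 ≤ K := le_trans (le_trans (le_max_left _ _) (le_max_right _ _)) hK
  have hKK4 : K4 ≤ K := le_trans (le_trans (le_max_right _ _) (le_max_right _ _)) hK
  have hN := hK3 K (K + 2) (ss (K + 2)) hKK3 rfl rfl
  obtain ⟨n, T, f, D, bth, Z, X, aY, aP, hn1, hn2, hRD, hct, hTE, hTE2⟩ :=
    hK1 K (K + 2) (ss (K + 2)) _ _ hKK1 rfl rfl rfl rfl A Q hA hQ V R E hSt hER hE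
  obtain ⟨F, R', hDec, hR'T, hdeg, hSep', hsp1, hsp2⟩ :=
    hK2 K (K + 2) (ss (K + 2)) _ _ n hKK2 rfl rfl rfl rfl hn1 hn2 V R T f D bth Z X aY aP hRD hSep
  set s : ℕ := ss (K + 2) with hs
  have hs1 := hN.s1
  have hnK : n ≤ K := by omega
  have hsn : s ≤ K - n := by omega
  have hns : K - n ≤ 41 * s := by omega
  have hsnr : (s : ℝ) ≤ ((K - n : ℕ) : ℝ) := by exact_mod_cast hsn
  have hnsr : ((K - n : ℕ) : ℝ) ≤ 41 * s := by exact_mod_cast hns
  have hKn1 : (1 : ℝ) ≤ ((K - n : ℕ) : ℝ) := by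
    have : 1 ≤ K - n := by omega
    exact_mod_cast this
  have hKnk : ((K - n : ℕ) : ℝ) ≤ ((K + 2 : ℕ) : ℝ) := by
    have : K - n ≤ K + 2 := by omega
    exact_mod_cast this
  have hK1r : (1 : ℝ) ≤ K := by exact_mod_cast hN.K1
  have hR'R : R' ≤ R := hR'T.trans hRD.TR
  refine ⟨n, F, R', hnK, hDec, hN.lo.trans hsnr, hnsr.trans hN.up, ?_, hSep', ?_, ?_, ?_⟩
  · refine ⟨?_, fun v => (hdeg v).1, fun v => (hdeg v).2, ?_, ?_⟩
    · intro u v x y huv h1 h2 h3 h4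
      exact hSt.c4 u v x y huv (hR'R h1) (hR'R h2) (hR'R h3) (hR'R h4)
    · intro v
      have h1 : (({u | R'.Adj v u ∧ dg R' u ≠ 2 * (K - n)}.ncard : ℕ) : ℝ) ≤
          ({u | T.Adj v u ∧ dg R' u ≠ 2 * (K - n)}.ncard : ℝ) := by
        have h0 : {u | R'.Adj v u ∧ dg R' u ≠ 2 * (K - n)} ⊆
            {u | T.Adj v u ∧ dg R' u ≠ 2 * (K - n)} := fun u hu => ⟨hR'T hu.1, hu.2⟩
        exact_mod_cast Set.ncard_le_ncard h0 (Set.toFinite _)
      have h2 := hsp2 v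
      have h3 : (((K + 2 : ℕ) : ℝ)) ^ (-(c / 7 / 20)) ≤ ((K - n : ℕ) : ℝ) ^ (-(c / 7 / 20)) :=
        Real.rpow_le_rpow_of_nonpos (by linarith) hKnk (by linarith)
      calc (({u | R'.Adj v u ∧ dg R' u ≠ 2 * (K - n)}.ncard : ℕ) : ℝ)
          ≤ s * (((K + 2 : ℕ) : ℝ)) ^ (-(c / 7 / 20)) := h1.trans h2
        _ ≤ ((K - n : ℕ) : ℝ) * ((K - n : ℕ) : ℝ) ^ (-(c / 7 / 20)) := by
            apply mul_le_mul hsnr h3 (Real.rpow_nonneg (Nat.cast_nonneg _) _) (by linarith)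
        _ = ((K - n : ℕ) : ℝ) ^ (1 - c / 7 / 20) := by
            rw [sub_eq_add_neg, Real.rpow_add (by linarith), Real.rpow_one]
        _ ≤ ((K - n : ℕ) : ℝ) ^ (1 - c / 280) :=
            Real.rpow_le_rpow_of_exponent_le hKn1 (by linarith)
    · refine H7.cnt_mono hR'T ?_ ?_ ?_ (Nat.cast_nonneg _) hQ ?_ hct
      · positivity
      · positivity
      · have h1r : (n : ℝ) + 11 * s ≤ K := by exact_mod_cast hn1
        rw [Nat.cast_sub hnK]
        have : (0 : ℝ) ≤ s := Nat.cast_nonneg s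
        linarith
      · have hA0 : 0 ≤ A ^ (L * L) := by positivity
        rw [← mul_assoc]
        exact mul_le_mul_of_nonneg_right hN.ct hA0
  · intro v
    refine (hsp1 v).trans ?_
    have h1 : (((K + 2 : ℕ) : ℝ)) ^ (1 - c / 7 / 20) ≤ (2 * (K : ℝ)) ^ (1 - c / 7 / 20) :=
      Real.rpow_le_rpow (Nat.cast_nonneg _) hN.k2 (by linarith)
    have h2 : (2 * (K : ℝ)) ^ (1 - c / 7 / 20) ≤ 2 * (K : ℝ) ^ (1 - c / 7 / 20) := by
      rw [Real.mul_rpow (by norm_num) (by linarith)]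
      refine mul_le_mul_of_nonneg_right ?_ (Real.rpow_nonneg (by linarith) _)
      calc (2 : ℝ) ^ (1 - c / 7 / 20) ≤ (2 : ℝ) ^ (1 : ℝ) :=
            Real.rpow_le_rpow_of_exponent_le (by norm_num) (by linarith)
        _ = 2 := Real.rpow_one 2
    refine h1.trans (h2.trans (H7.pw_le hK1r ?_))
    have h5 : x4 ≤ (K : ℝ) := by
      have : (K4 : ℝ) ≤ K := by exact_mod_cast hKK4
      linarith
    have h6 := h4 K h5
    have h7 : (1 - c / 280) - (1 - c / 7 / 20) = c / 280 := by ring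
    rwa [h7]
  · intro v
    exact (dg_mono (inf_le_inf_right E hR'T) v).trans (hTE v)
  · intro x
    refine le_trans ?_ (hTE2 x)
    have h1 : {y | R.Adj x y ∧ ∃ z, (R' ⊓ E).Adj y z} ⊆
        {y | R.Adj x y ∧ ∃ z, (T ⊓ E).Adj y z} := by
      rintro y ⟨h2, z, hz⟩
      exact ⟨h2, z, inf_le_inf_right E hR'T hz⟩
    exact_mod_cast Set.ncard_le_ncard h1 (Set.toFinite _)

end Pool.Agent.C4N.H83
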